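import Mathlib
import Pool.Agent.X283.MMD

namespace Pool.Agent.Results.MP_ca4ce9_co.MixedDimTwoConnected

open Finset Pool.Agent.X283.MMD

/-- `G` is 2-connected: at least three vertices, connected, and no cut-vertex. -/
def TwoConnected {V : Type*} [Fintype V] (G : SimpleGraph V) : Prop :=
  3 ≤ Fintype.card V ∧ G.Connected ∧ ∀ v : V, (G.induce {v}ᶜ).Connected

/-- distance from the vertex `s` to the edge `e = ab`: the minimum of `d(s,a)` and `d(s,b)` -/
noncomputable def dE {V : Type*} (G : SimpleGraph V) (s : V) (e : Sym2 V) : ℕ :=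
  Sym2.lift ⟨fun a b => min (G.dist s a) (G.dist s b), fun _ _ => min_comm _ _⟩ e

/-- distance from the vertex `s` to an element (a vertex or an edge) of `G` -/
noncomputable def dElem {V : Type*} (G : SimpleGraph V) (s : V) : V ⊕ G.edgeSet → ℕ
  | .inl v => G.dist s v
  | .inr e => dE G s e.1

/-- `S` is a mixed resolving set of `G` -/
def IsMixedResolving {V : Type*} (G : SimpleGraph V) (S : Finset V) : Prop :=
  ∀ x y : V ⊕ G.edgeSet, x ≠ y → ∃ s ∈ S, dElem G s x ≠ dElem G s y

/-- the mixed metric dimension: the least size of a mixed resolving set -/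
noncomputable def mdim {V : Type*} (G : SimpleGraph V) : ℕ :=
  sInf {k | ∃ S : Finset V, IsMixedResolving G S ∧ S.card = k}

lemma two_nbrs {V : Type*} [Fintype V] {G : SimpleGraph V} (h : TwoConnected G) (v : V) :
    ∃ b b', G.Adj v b ∧ G.Adj v b' ∧ b ≠ b' := by
  classical
  obtain ⟨h3, _, hv⟩ := h
  have key : ∀ u, u ≠ v → ∃ b, G.Adj v b ∧ b ≠ u := by
    intro u hu
    have hex : ∃ w, w ≠ u ∧ w ≠ v := by
      by_contra hcon
      push Not at hcon
      have hsub : (univ : Finset V) ⊆ {u, v} := by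
        intro w _
        by_cases hw : w = u
        · simp [hw]
        · simp [hcon w hw]
      have := Finset.card_le_card hsub
      rw [Finset.card_univ] at this
      have := Finset.card_le_two (a := u) (b := v)
      omega
    obtain ⟨w, hwu, hwv⟩ := hex
    obtain ⟨W⟩ := (hv u).preconnected ⟨v, by simpa using hu.symm⟩ ⟨w, by simpa using hwu⟩
    cases W with
    | nil => exact absurd rfl hwv
    | cons hadj q =>
      rename_i b
      exact ⟨b.1, by simpa using hadj, fun h => b.2 (by simp [h])⟩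
  have hne : ∃ u, u ≠ v := by
    by_contra hcon
    push Not at hcon
    have hsub : (univ : Finset V) ⊆ {v} := by
      intro w _
      simp [hcon w]
    have := Finset.card_le_card hsub
    rw [Finset.card_univ] at this
    have := Finset.card_singleton v
    omega
  obtain ⟨u, hu⟩ := hne
  obtain ⟨b, hb, _⟩ := key u hu
  obtain ⟨b', hb', hne⟩ := key b hb.ne'
  exact ⟨b, b', hb, hb', hne.symm⟩

/-- a connected graph with all degrees two is a cycle -/
lemma iso_cycle {V : Type*} [Fintype V] {G : SimpleGraph V} (hG : G.Connected)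
    (h2 : ∀ v, ∃ b b', G.Adj v b ∧ G.Adj v b' ∧ b ≠ b')
    (h3 : ∀ z, ∃ a b : V, ∀ c, G.Adj z c → c = a ∨ c = b) :
    ∃ n, Nonempty (G ≃g SimpleGraph.cycleGraph n) := by
  classical
  have hdeg : ∀ v, G.degree v ≤ 2 := by
    intro v
    obtain ⟨a, b, hab⟩ := h3 v
    have hsub : G.neighborFinset v ⊆ {a, b} := by
      intro c hc
      rw [SimpleGraph.mem_neighborFinset] at hc
      rcases hab c hc with h | h <;> simp [h]
    rw [← SimpleGraph.card_neighborFinset_eq_degree]
    exact (Finset.card_le_card hsub).trans Finset.card_le_two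
  have hdeg2 : ∀ v, 2 ≤ G.degree v := by
    intro v
    obtain ⟨b, b', hb, hb', hne⟩ := h2 v
    rw [← SimpleGraph.card_neighborFinset_eq_degree, ← Finset.card_pair hne]
    apply Finset.card_le_card
    intro c hc
    rw [SimpleGraph.mem_neighborFinset]
    simp only [mem_insert, mem_singleton] at hc
    rcases hc with rfl | rfl
    · exact hb
    · exact hb'
  have hnt : Nontrivial V := by
    obtain ⟨v⟩ := hG.nonempty
    obtain ⟨b, b', _, _, hne⟩ := h2 v
    exact ⟨b, b', hne⟩
  have hcyc : ¬ G.IsAcyclic := by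
    intro hac
    obtain ⟨v, hv⟩ := (SimpleGraph.IsTree.mk hG hac).exists_vert_degree_one_of_nontrivial
    have := hdeg2 v
    omega
  rw [SimpleGraph.isAcyclic_iff_free_cycleGraph] at hcyc
  push Not at hcyc
  obtain ⟨n, hn, hf⟩ := hcyc
  obtain ⟨f⟩ := hf
  obtain ⟨k, rfl⟩ : ∃ k, n = k + 3 := ⟨n - 3, by omega⟩
  have hinj : Function.Injective f.toHom := f.injective'
  have himg : ∀ i, ((SimpleGraph.cycleGraph (k + 3)).neighborFinset i).image f.toHom =
      G.neighborFinset (f.toHom i) := by
    intro i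
    apply Finset.eq_of_subset_of_card_le
    · intro c hc
      obtain ⟨j, hj, rfl⟩ := mem_image.1 hc
      rw [SimpleGraph.mem_neighborFinset] at hj ⊢
      exact f.toHom.map_adj hj
    · rw [Finset.card_image_of_injective _ hinj, SimpleGraph.card_neighborFinset_eq_degree,
        SimpleGraph.card_neighborFinset_eq_degree, SimpleGraph.cycleGraph_degree_three_le]
      exact hdeg _
  have hnb : ∀ i c, G.Adj (f.toHom i) c →
      ∃ j, (SimpleGraph.cycleGraph (k + 3)).Adj i j ∧ f.toHom j = c := by
    intro i c hc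
    have : c ∈ G.neighborFinset (f.toHom i) := by
      rw [SimpleGraph.mem_neighborFinset]; exact hc
    rw [← himg i] at this
    obtain ⟨j, hj, hjc⟩ := mem_image.1 this
    rw [SimpleGraph.mem_neighborFinset] at hj
    exact ⟨j, hj, hjc⟩
  have hsurj : Function.Surjective f.toHom := by
    intro c
    obtain ⟨W⟩ := hG.preconnected (f.toHom 0) c
    have hgen : ∀ (a c : V), G.Walk a c → a ∈ Set.range f.toHom → c ∈ Set.range f.toHom := by
      intro a c W
      induction W with
      | nil => exact id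
      | cons hadj q ih =>
        rintro ⟨i, hi⟩
        apply ih
        rw [← hi] at hadj
        obtain ⟨j, _, hj⟩ := hnb i _ hadj
        exact ⟨j, hj⟩
    exact hgen _ _ W ⟨0, rfl⟩
  have hadj : ∀ i j, G.Adj (f.toHom i) (f.toHom j) ↔
      (SimpleGraph.cycleGraph (k + 3)).Adj i j := by
    intro i j
    constructor
    · intro h
      obtain ⟨j', hj', he⟩ := hnb i _ h
      rwa [← hinj he]
    · intro h
      exact f.toHom.map_adj h
  exact ⟨k + 3, ⟨RelIso.symm ⟨Equiv.ofBijective (f.toHom : Fin (k + 3) → V) ⟨hinj, hsurj⟩,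
    fun {i j} => hadj i j⟩⟩⟩

theorem result {V : Type*} [Fintype V] [DecidableEq V] (G : SimpleGraph V) [DecidableRel G.Adj]
    (h2 : TwoConnected G) (hc : ¬ ∃ n, Nonempty (G ≃g SimpleGraph.cycleGraph n)) :
    (∃ S : Finset V, IsMixedResolving G S) ∧
    (mdim G : ℤ) ≤ 2 * ((G.edgeFinset.card : ℤ) - (Fintype.card V : ℤ) + 1) := by
  have hG : G.Connected := h2.2.1
  have hz : ∃ z, ∀ a b : V, ∃ c, G.Adj z c ∧ c ≠ a ∧ c ≠ b := by
    by_contra hcon
    push Not at hcon
    apply hc
    apply iso_cycle hG (two_nbrs h2)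
    intro z
    obtain ⟨a, b, hab⟩ := hcon z
    refine ⟨a, b, ?_⟩
    intro c hc
    by_cases hca : c = a
    · exact Or.inl hca
    · exact Or.inr (hab c hc hca)
  obtain ⟨z, hz⟩ := hz
  obtain ⟨p, q, hzp, hzq, hpq⟩ := two_nbrs h2 z
  obtain ⟨r, p', q', hp', hq', hne, hd1, hd2⟩ :=
    exists_root hG hzp hzq hpq (h2.2.2 z).preconnected
  obtain ⟨S, hS, hcard⟩ := main_root (G := G) hG (two_nbrs h2) r z p' q' hp' hq' hne hd1 hd2 hz
  have hS' : IsMixedResolving G S := by
    intro x y hxy
    obtain ⟨s, hs, h⟩ := hS x y hxy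
    refine ⟨s, hs, ?_⟩
    rcases x with x | x <;> rcases y with y | y <;> exact h
  refine ⟨⟨S, hS'⟩, ?_⟩
  have hle : mdim G ≤ S.card := Nat.sInf_le ⟨S, hS', rfl⟩
  omega

end Pool.Agent.Results.MP_ca4ce9_co.MixedDimTwoConnected
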